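import Pool.Agent.Helper32.OIP.Goals

/-!
OIP-E4: random order telescoping for a set function.
-/

open MeasureTheory

namespace Pool.Agent.Helper33.OIP

open Pool.Agent.Helper32.OIP Pool.Agent.Helper58.Orb

variable {A : Type}

open Classical in
/-- Integrability of a function which only sees finitely many measurable events. -/
theorem integrable_h (W : Finset A) (h : Set A → ℝ) (hW : ∀ T, h T = h (T ∩ (W : Set A)))
    (P : Bern A → A → Prop) (hP : ∀ i, MeasurableSet {U | P U i}) :
    Integrable (fun U : Bern A => h {i | P U i}) (bern A) := by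
  set b : Bern A → (W → Bool) := fun U i => decide (P U i) with hb
  have hbm : Measurable b := by
    rw [measurable_pi_iff]
    intro i
    refine measurable_to_bool ?_
    have : (fun U => b U i) ⁻¹' {true} = {U | P U i} := by
      ext U
      simp [hb]
    rw [this]
    exact hP i
  set F : (W → Bool) → ℝ := fun c => h {i | ∃ hi : i ∈ W, c ⟨i, hi⟩ = true} with hF
  have heq : (fun U : Bern A => h {i | P U i}) = F ∘ b := by
    funext U
    simp only [hF, hb, Function.comp]
    rw [hW {i | P U i}]
    congr 1
    ext i
    simp only [Set.mem_inter_iff, Set.mem_ofPred_eq, Finset.mem_coe, decide_eq_true_eq,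
      exists_prop]
    exact and_comm
  have hFm : Measurable F := measurable_of_countable F
  rw [heq]
  refine Integrable.of_bound (hFm.comp hbm).aestronglyMeasurable (∑ c, |F c|) ?_
  refine Filter.Eventually.of_forall fun U => ?_
  rw [Real.norm_eq_abs]
  exact Finset.single_le_sum (f := fun c => |F c|) (fun c _ => abs_nonneg _) (Finset.mem_univ (b U))

open Classical in
/-- Telescoping along the order given by `U`. -/
theorem telescope (h : Set A → ℝ) (U : A → unitInterval) (hU : ∀ i j, i ≠ j → U i ≠ U j)
    (s : Finset A) :
    ∑ j ∈ s, (h ((s : Set A) ∩ {i | U i < U j}) - h ((s : Set A) ∩ {i | U i ≤ U j})) =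
      h ∅ - h (s : Set A) := by
  refine Finset.induction_on_max_value U s (by simp) ?_
  · intro a s ha hmax ih
    have hlt : ∀ x ∈ s, U x < U a := fun x hx =>
      lt_of_le_of_ne (hmax x hx) (hU x a (by rintro rfl; exact ha hx))
    rw [Finset.sum_insert ha]
    have h1 : ∀ j ∈ s, h (((insert a s : Finset A) : Set A) ∩ {i | U i < U j}) -
        h (((insert a s : Finset A) : Set A) ∩ {i | U i ≤ U j}) =
        h ((s : Set A) ∩ {i | U i < U j}) - h ((s : Set A) ∩ {i | U i ≤ U j}) := by
      intro j hj
      have hja := hlt j hj
      have e1 : ((insert a s : Finset A) : Set A) ∩ {i | U i < U j} =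
          (s : Set A) ∩ {i | U i < U j} := by
        ext i
        simp only [Set.mem_inter_iff, Finset.coe_insert, Set.mem_insert_iff, Finset.mem_coe,
          Set.mem_ofPred_eq]
        constructor
        · rintro ⟨rfl | hi, hlt'⟩
          · exact absurd hlt' (not_lt.2 hja.le)
          · exact ⟨hi, hlt'⟩
        · rintro ⟨hi, hlt'⟩
          exact ⟨Or.inr hi, hlt'⟩
      have e2 : ((insert a s : Finset A) : Set A) ∩ {i | U i ≤ U j} =
          (s : Set A) ∩ {i | U i ≤ U j} := by
        ext i
        simp only [Set.mem_inter_iff, Finset.coe_insert, Set.mem_insert_iff, Finset.mem_coe,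
          Set.mem_ofPred_eq]
        constructor
        · rintro ⟨rfl | hi, hlt'⟩
          · exact absurd hlt' (not_le.2 hja)
          · exact ⟨hi, hlt'⟩
        · rintro ⟨hi, hlt'⟩
          exact ⟨Or.inr hi, hlt'⟩
      rw [e1, e2]
    rw [Finset.sum_congr rfl h1, ih]
    have e3 : ((insert a s : Finset A) : Set A) ∩ {i | U i < U a} = (s : Set A) := by
      ext i
      simp only [Set.mem_inter_iff, Finset.coe_insert, Set.mem_insert_iff, Finset.mem_coe,
        Set.mem_ofPred_eq]
      constructor
      · rintro ⟨rfl | hi, hlt'⟩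
        · exact absurd hlt' (lt_irrefl _)
        · exact hi
      · intro hi
        exact ⟨Or.inr hi, hlt i hi⟩
    have e4 : ((insert a s : Finset A) : Set A) ∩ {i | U i ≤ U a} =
        ((insert a s : Finset A) : Set A) := by
      ext i
      simp only [Set.mem_inter_iff, Finset.coe_insert, Set.mem_insert_iff, Finset.mem_coe,
        Set.mem_ofPred_eq]
      constructor
      · rintro ⟨h1, _⟩
        exact h1
      · rintro (rfl | hi)
        · exact ⟨Or.inl rfl, le_rfl⟩
        · exact ⟨Or.inr hi, (hlt i hi).le⟩
    rw [e3, e4]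
    ring

theorem e4 : GoalE4 := by
  intro A _ W h hW
  classical
  have hdist : ∀ᵐ U ∂(bern A), ∀ i j, i ≠ j → U i ≠ U j := by
    rw [ae_all_iff]
    intro i
    rw [ae_all_iff]
    intro j
    by_cases hij : i = j
    · exact Filter.Eventually.of_forall fun U hne => absurd hij hne
    · filter_upwards [coord_ne hij] with U hU _
      exact hU
  have hlt : ∀ j, Integrable (fun U : Bern A => h {i | U i < U j}) (bern A) := fun j =>
    integrable_h W h hW (fun U i => U i < U j) fun i =>
      measurableSet_lt (measurable_pi_apply i) (measurable_pi_apply j)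
  have hle : ∀ j, Integrable (fun U : Bern A => h {i | U i ≤ U j}) (bern A) := fun j =>
    integrable_h W h hW (fun U i => U i ≤ U j) fun i =>
      measurableSet_le (measurable_pi_apply i) (measurable_pi_apply j)
  have hint : ∀ j, Integrable (fun U : Bern A => h {i | U i < U j} - h {i | U i ≤ U j})
      (bern A) := fun j => (hlt j).sub (hle j)
  refine ⟨hint, ?_, ?_, ?_⟩
  · rw [← integral_finsetSum _ (fun j _ => hint j)]
    have hae : (fun U : Bern A => ∑ j ∈ W, (h {i | U i < U j} - h {i | U i ≤ U j})) =ᵐ[bern A]
        fun _ => h ∅ - h (W : Set A) := by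
      filter_upwards [hdist] with U hU
      rw [← telescope h U hU W]
      refine Finset.sum_congr rfl fun j _ => ?_
      rw [hW {i | U i < U j}, hW {i | U i ≤ U j}, Set.inter_comm, Set.inter_comm {i | U i ≤ U j}]
    rw [integral_congr_ae hae]
    simp
  · intro j hj
    have hae : (fun U : Bern A => h {i | U i < U j} - h {i | U i ≤ U j}) =ᵐ[bern A]
        fun _ => (0 : ℝ) := by
      filter_upwards [hdist] with U hU
      rw [hW {i | U i < U j}, hW {i | U i ≤ U j}]
      have : {i | U i < U j} ∩ (W : Set A) = {i | U i ≤ U j} ∩ (W : Set A) := by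
        ext i
        simp only [Set.mem_inter_iff, Set.mem_ofPred_eq, Finset.mem_coe]
        constructor
        · rintro ⟨h1, h2⟩
          exact ⟨h1.le, h2⟩
        · rintro ⟨h1, h2⟩
          exact ⟨lt_of_le_of_ne h1 (hU i j (by rintro rfl; exact hj h2)), h2⟩
      rw [this, sub_self]
    rw [integral_congr_ae hae]
    simp
  · intro j
    filter_upwards [hdist] with U hU
    ext i
    simp only [Set.mem_insert_iff, Set.mem_ofPred_eq]
    constructor
    · intro h1
      by_cases hij : i = j
      · exact Or.inl hij
      · exact Or.inr (lt_of_le_of_ne h1 (hU i j hij))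
    · rintro (rfl | h1)
      · exact le_rfl
      · exact h1.le

end Pool.Agent.Helper33.OIP
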